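import Pool.Agent.QSN.StmtsD
import Pool.Agent.Helper10_QSX.DDE

/-! Row SLI of squad QSN (helper95): the coordinates of the embeddings. -/

set_option autoImplicit false

namespace Pool.Agent.QSN.H95

open Matrix Finset Pool.Agent.QSX Pool.Agent.QSN

theorem md_ne_zero {N : ℕ} (j : Fin N) : md j ≠ 0 := Fin.succ_ne_zero _

theorem md_ne_la {N : ℕ} (j : Fin N) : md j ≠ la N := by
  intro h
  have h1 : (md j).val = (la N).val := by rw [h]
  unfold md la at h1
  simp only [Fin.val_succ, Fin.val_castSucc, Fin.val_last] at h1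
  have := j.isLt
  omega

theorem md_inj {N : ℕ} {j j' : Fin N} (h : md j = md j') : j = j' := by
  unfold md at h
  exact Fin.castSucc_injective _ (Fin.succ_injective _ h)

theorem la_ne_zero (N : ℕ) : (0 : Fin (N + 2)) ≠ la N := by
  intro h
  have h1 : (0 : Fin (N + 2)).val = (la N).val := by rw [h]
  unfold la at h1
  simp at h1

theorem md_val {N : ℕ} (j : Fin N) : (md j).val = j.val + 1 := by
  unfold md
  simp

/-- every index is the first one, a middle one or the last one -/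
theorem idx_cases {N : ℕ} (i : Fin (N + 2)) : i = 0 ∨ (∃ j : Fin N, i = md j) ∨ i = la N := by
  rcases Fin.eq_zero_or_eq_succ i with h | ⟨i', rfl⟩
  · exact Or.inl h
  · rcases Fin.eq_castSucc_or_eq_last i' with ⟨j, rfl⟩ | rfl
    · exact Or.inr (Or.inl ⟨j, rfl⟩)
    · exact Or.inr (Or.inr rfl)

/-- the coordinates -/
def gC {r p q N : ℕ} (α : Fin p → Fin r) (β : Fin q → Fin r) :
    Fin (p + N * r + q) → Fin (N + 2) × Fin r :=
  Fin.addCases (Fin.addCases (fun i => ((0 : Fin (N + 2)), α i))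
    (fun t => (md (finProdFinEquiv.symm t).1, (finProdFinEquiv.symm t).2)))
    (fun i => (la N, β i))

variable {r p q N : ℕ} (α : Fin p → Fin r) (β : Fin q → Fin r)

theorem gC_1 (i : Fin p) :
    gC (N := N) α β (Fin.castAdd q (Fin.castAdd (N * r) i)) = (0, α i) := by
  unfold gC
  rw [Fin.addCases_left, Fin.addCases_left]

theorem gC_2 (t : Fin (N * r)) : gC (N := N) α β (Fin.castAdd q (Fin.natAdd p t)) =
    (md (finProdFinEquiv.symm t).1, (finProdFinEquiv.symm t).2) := by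
  unfold gC
  rw [Fin.addCases_left, Fin.addCases_right]

theorem gC_3 (i : Fin q) : gC (N := N) α β (Fin.natAdd (p + N * r) i) = (la N, β i) := by
  unfold gC
  rw [Fin.addCases_right]

theorem gC_cases (s : Fin (p + N * r + q)) :
    (∃ i : Fin p, s = Fin.castAdd q (Fin.castAdd (N * r) i)) ∨
    (∃ t : Fin (N * r), s = Fin.castAdd q (Fin.natAdd p t)) ∨
    (∃ i : Fin q, s = Fin.natAdd (p + N * r) i) := by
  refine Fin.addCases (fun s => ?_) (fun i => Or.inr (Or.inr ⟨i, rfl⟩)) s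
  refine Fin.addCases (fun i => Or.inl ⟨i, rfl⟩) (fun t => Or.inr (Or.inl ⟨t, rfl⟩)) s

theorem gC_inj (hα : Function.Injective α) (hβ : Function.Injective β) :
    Function.Injective (gC (N := N) α β) := by
  intro s s' h
  rcases gC_cases s with ⟨i, rfl⟩ | ⟨t, rfl⟩ | ⟨i, rfl⟩ <;>
    rcases gC_cases s' with ⟨i', rfl⟩ | ⟨t', rfl⟩ | ⟨i', rfl⟩
  · rw [gC_1, gC_1] at h
    rw [hα (Prod.ext_iff.1 h).2]
  · rw [gC_1, gC_2] at h
    exact absurd (Prod.ext_iff.1 h).1.symm (md_ne_zero _)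
  · rw [gC_1, gC_3] at h
    exact absurd (Prod.ext_iff.1 h).1 (la_ne_zero N)
  · rw [gC_2, gC_1] at h
    exact absurd (Prod.ext_iff.1 h).1 (md_ne_zero _)
  · rw [gC_2, gC_2] at h
    have h1 := md_inj (Prod.ext_iff.1 h).1
    have h2 := (Prod.ext_iff.1 h).2
    have h3 : finProdFinEquiv.symm t = finProdFinEquiv.symm t' := Prod.ext h1 h2
    rw [finProdFinEquiv.symm.injective h3]
  · rw [gC_2, gC_3] at h
    exact absurd (Prod.ext_iff.1 h).1 (md_ne_la _)
  · rw [gC_3, gC_1] at h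
    exact absurd (Prod.ext_iff.1 h).1.symm (la_ne_zero N)
  · rw [gC_3, gC_2] at h
    exact absurd (Prod.ext_iff.1 h).1.symm (md_ne_la _)
  · rw [gC_3, gC_3] at h
    rw [hβ (Prod.ext_iff.1 h).2]

theorem gC_mono (s s' : Fin (p + N * r + q)) (h : s ≤ s') :
    (gC (N := N) α β s).1 ≤ (gC (N := N) α β s').1 := by
  have hla : ∀ i : Fin (N + 2), i ≤ la N := fun i => Fin.le_last i
  rcases gC_cases s with ⟨i, rfl⟩ | ⟨t, rfl⟩ | ⟨i, rfl⟩ <;>
    rcases gC_cases s' with ⟨i', rfl⟩ | ⟨t', rfl⟩ | ⟨i', rfl⟩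
  · rw [gC_1, gC_1]
  · rw [gC_1, gC_2]
    exact Fin.zero_le _
  · rw [gC_1, gC_3]
    exact Fin.zero_le _
  · exfalso
    have h1 : p + t.val ≤ i'.val := h
    have := i'.isLt
    omega
  · rw [gC_2, gC_2]
    have h1 : p + t.val ≤ p + t'.val := h
    show md (finProdFinEquiv.symm t).1 ≤ md (finProdFinEquiv.symm t').1
    rw [Fin.le_def, md_val, md_val]
    have h2 : t.val / r ≤ t'.val / r := Nat.div_le_div_right (by omega)
    exact Nat.succ_le_succ h2
  · rw [gC_2, gC_3]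
    exact hla _
  · exfalso
    have h1 : p + N * r + i.val ≤ i'.val := h
    have := i'.isLt
    omega
  · exfalso
    have h1 : p + N * r + i.val ≤ p + t'.val := h
    have := t'.isLt
    omega
  · rw [gC_3, gC_3]

theorem gC_mid (j : Fin N) (c : Fin r) : ∃ s, gC (N := N) α β s = (md j, c) := by
  refine ⟨Fin.castAdd q (Fin.natAdd p (finProdFinEquiv (j, c))), ?_⟩
  rw [gC_2, Equiv.symm_apply_apply]

theorem sli (slg : SlgStmt) (acm : AcmStmt) : SliStmt := by
  intro k k' r p q N m hk hk' hp hq 𝔻 𝔻' ρ α β hα hβ h hm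
  have hlt_la : ∀ i j : Fin (N + 2), i < j → i ≠ la N := by
    intro i j hij h0
    rw [h0] at hij
    exact absurd hij (not_lt.2 (Fin.le_last j))
  have hlt_0 : ∀ i j : Fin (N + 2), i < j → j ≠ 0 := by
    intro i j hij h0
    rw [h0] at hij
    exact absurd hij (not_lt.2 (Fin.zero_le i))
  have h1 : AlgEmb (datD (N + 2) 𝔻) (datD (p + N * r + q) 𝔻') := by
    refine slg k k' r (N + 2) (p + N * r + q) hk hk' 𝔻 𝔻' ρ (gC (N := N) α β)
      (gC_inj α β hα hβ) (gC_mono α β) ?_ ?_ ?_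
    · intro i j l c hij hjl
      rcases idx_cases j with h0 | ⟨j', rfl⟩ | h0
      · exact absurd h0 (hlt_0 i j hij)
      · exact gC_mid α β j' c
      · exact absurd h0 (hlt_la j l hjl)
    · intro i
      rcases idx_cases i with rfl | ⟨j', rfl⟩ | rfl
      · exact ⟨_, by rw [gC_1 α β ⟨0, hp⟩]⟩
      · obtain ⟨s, hs⟩ := gC_mid α β j' (α ⟨0, hp⟩)
        exact ⟨s, by rw [hs]⟩
      · exact ⟨_, by rw [gC_3 α β ⟨0, hq⟩]⟩
    · intro i j hij x hx
      apply h
      intro a b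
      obtain ⟨s, hs⟩ : ∃ s, gC (N := N) α β s = (i, α a) := by
        rcases idx_cases i with rfl | ⟨j', rfl⟩ | h0
        · exact ⟨_, gC_1 α β a⟩
        · exact gC_mid α β j' (α a)
        · exact absurd h0 (hlt_la i j hij)
      obtain ⟨s', hs'⟩ : ∃ s', gC (N := N) α β s' = (j, β b) := by
        rcases idx_cases j with h0 | ⟨j', rfl⟩ | rfl
        · exact absurd h0 (hlt_0 i j hij)
        · exact gC_mid α β j' (β b)
        · exact ⟨_, gC_3 α β b⟩
      have h2 := hx s s' (by rw [hs]) (by rw [hs'])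
      rw [hs, hs'] at h2
      exact h2
  obtain ⟨d, rfl⟩ := Nat.exists_eq_add_of_le hm
  exact acm _ _ _ h1 (Pool.Agent.QSX.H10.alg_pad hk' (le_refl 𝔻') (p + N * r + q) d)

end Pool.Agent.QSN.H95
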